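import Pool.Agent.H74.RCM.Stmts

/-!
# RCM: PAR, sources and trace through the parity classes
-/

set_option autoImplicit false

namespace Pool.RCM

open scoped Classical
open Finset

theorem src_congr65 {V E : Type} [Fintype V] [Fintype E] (a b : E → V) {m m' : E → ℕ}
    (h : ∀ e, m e % 2 = m' e % 2) (S : Finset V) : IsSrc a b m S ↔ IsSrc a b m' S := by
  have key : ∀ v, deg a b m v % 2 = deg a b m' v % 2 := by
    intro v
    unfold deg
    rw [Finset.sum_nat_mod, Finset.sum_nat_mod (f := fun e =>
      (if a e = v then m' e else 0) + (if b e = v then m' e else 0))]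
    congr 1
    refine Finset.sum_congr rfl fun e _ => ?_
    have := h e
    split_ifs <;> omega
  unfold IsSrc
  refine forall_congr' fun v => ?_
  rw [Nat.odd_iff, Nat.odd_iff, key v]

theorem par1_cls65 {E : Type} (n : E → ℕ × ℕ) (e : E) :
    par1 (fun e => cls (n e)) e = (n e).1 % 2 := by
  unfold par1 cls
  by_cases h : n e = (0, 0)
  · simp [h]
  · simp only [h, if_false]
    rcases Nat.mod_two_eq_zero_or_one (n e).1 with h1 | h1 <;> simp [h1]

theorem par2_cls65 {E : Type} (n : E → ℕ × ℕ) (e : E) :
    par2 (fun e => cls (n e)) e = (n e).2 % 2 := by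
  unfold par2 cls
  by_cases h : n e = (0, 0)
  · simp [h]
  · simp only [h, if_false]
    rcases Nat.mod_two_eq_zero_or_one (n e).2 with h1 | h1 <;> simp [h1]

theorem PAR : PARStmt := by
  intro V E _ _ a b n S
  refine ⟨?_, ?_, ?_⟩
  · exact src_congr65 a b (fun e => by rw [par1_cls65, Nat.mod_mod]) S
  · exact src_congr65 a b (fun e => by rw [par2_cls65, Nat.mod_mod]) S
  · ext e
    unfold tr supp cls
    simp only [Set.mem_ofPred_eq]
    by_cases h : n e = (0, 0)
    · simp [h]
    · simp only [h, if_false, ne_eq, reduceCtorEq, not_false_eq_true, iff_true]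
      by_contra hc
      exact h (Prod.ext (by omega) (by omega))

end Pool.RCM
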