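import Pool.Agent.H65.RCM.PAR

/-!
# RCM: ZZC, the partition function as a finite sum
-/

set_option autoImplicit false

namespace Pool.RCM

open scoped Classical
open Finset

theorem hs_par65 (t : ℝ) (c : Bool) : HasSum
    (fun m : ℕ => if (m % 2 == 1) = c then t ^ m / (m.factorial : ℝ) else 0)
    (if c then Real.sinh t else Real.cosh t) := by
  cases c
  · have hinj : Function.Injective (fun k : ℕ => 2 * k) := fun x y h => by
      simp only at h
      omega
    simp only [Bool.false_eq_true, if_false]
    rw [← hinj.hasSum_iff]
    · refine (Real.hasSum_cosh t).congr_fun ?_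
      intro k
      simp
    · intro m hm
      rcases Nat.mod_two_eq_zero_or_one m with h1 | h1
      · exact absurd ⟨m / 2, by show 2 * (m / 2) = m; omega⟩ hm
      · simp [h1]
  · have hinj : Function.Injective (fun k : ℕ => 2 * k + 1) := fun x y h => by
      simp only at h
      omega
    simp only [if_true]
    rw [← hinj.hasSum_iff]
    · refine (Real.hasSum_sinh t).congr_fun ?_
      intro k
      simp
    · intro m hm
      rcases Nat.mod_two_eq_zero_or_one m with h1 | h1
      · simp [h1]
      · exact absurd ⟨m / 2, by show 2 * (m / 2) + 1 = m; omega⟩ hm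

theorem ZZC (hP : PIHStmt) : ZZCStmt := by
  intro V E _ _ a b J hJ
  have key : HasSum (fun n : E → ℕ => ∑ η : E → Bool,
      if IsSrc a b (fun e => if η e then 1 else 0) ∅ then
        ∏ e, (if ((n e) % 2 == 1) = η e then J e ^ (n e) / ((n e).factorial : ℝ) else 0) else 0)
      (Zc a b J ∅) := by
    unfold Zc
    refine hasSum_sum fun η _ => ?_
    by_cases h : IsSrc a b (fun e => if η e then 1 else 0) ∅
    · simp only [h, if_true]
      exact hP E ℕ (fun e m => if (m % 2 == 1) = η e then J e ^ m / (m.factorial : ℝ) else 0) _
        (fun e m => by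
          have := hJ e
          split_ifs
          · positivity
          · exact le_rfl) (fun e => hs_par65 (J e) (η e))
    · simp only [h, if_false]
      exact hasSum_zero
  have hfun : (fun n : E → ℕ => ∑ η : E → Bool,
      if IsSrc a b (fun e => if η e then 1 else 0) ∅ then
        ∏ e, (if ((n e) % 2 == 1) = η e then J e ^ (n e) / ((n e).factorial : ℝ) else 0) else 0) =
      fun n : E → ℕ => if IsSrc a b n ∅ then wt J n else 0 := by
    funext n
    rw [Finset.sum_eq_single (fun e => (n e) % 2 == 1)]
    · have h1 : IsSrc a b (fun e => if ((n e) % 2 == 1) then 1 else 0) ∅ ↔ IsSrc a b n ∅ := by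
        refine src_congr65 a b (fun e => ?_) ∅
        rcases Nat.mod_two_eq_zero_or_one (n e) with h1 | h1 <;> simp [h1]
      simp only [h1, if_true, wt]
    · intro η _ hη
      obtain ⟨e, he⟩ := Function.ne_iff.1 hη
      have h0 : ∏ e, (if ((n e) % 2 == 1) = η e then J e ^ (n e) / ((n e).factorial : ℝ)
          else 0) = 0 := by
        refine Finset.prod_eq_zero (Finset.mem_univ e) ?_
        rw [if_neg]
        exact fun h => he h.symm
      rw [h0, ite_self]
    · intro h
      exact absurd (Finset.mem_univ _) h
  rw [hfun] at key
  exact key.tsum_eq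

end Pool.RCM
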